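import Pool.Agent.H54.PM.Targets

/-!
# Board pmf_modules, row ADD: gluing of a cube along one word
-/

set_option autoImplicit false

open scoped symmDiff

namespace Pool.Agent.H16.PMF

open Pool.Agent.H54.PM

theorem mem_cube {p : ℕ} [NeZero p] (a b g : Wd p) :
    g ∈ cube a b ↔ ∀ i, g i = a i ∨ g i = b i := by
  unfold cube
  rw [Fintype.mem_piFinset]
  simp

/-- every word of the cube outside `W` is joined to the top word -/
theorem conn_top {p : ℕ} [NeZero p] (W : Finset (Wd p)) (f : Wd p) (M : ℕ)
    (hM : ∀ g ∈ W, ∀ i, g i < M) (n : ℕ) : ∀ g : Wd p,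
    (Finset.univ.filter fun i => g i ≠ M).card = n → g ∈ cube f (fun _ => M) \ W →
    Relation.ReflTransGen (mv (cube f (fun _ => M) \ W)) g (fun _ => M) ∧
      Relation.ReflTransGen (mv (cube f (fun _ => M) \ W)) (fun _ => M) g := by
  induction n with
  | zero =>
    intro g hg _
    have : g = fun _ => M := by
      funext i
      by_contra hne
      have : i ∈ Finset.univ.filter fun i => g i ≠ M := by simp [hne]
      rw [Finset.card_eq_zero.mp hg] at this
      exact absurd this (Finset.notMem_empty i)
    rw [this]
    exact ⟨Relation.ReflTransGen.refl, Relation.ReflTransGen.refl⟩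
  | succ n ih =>
    intro g hg hmem
    have hne : (Finset.univ.filter fun i => g i ≠ M).Nonempty := by
      rw [← Finset.card_pos, hg]; exact Nat.succ_pos n
    obtain ⟨i, hi⟩ := hne
    have hi' : g i ≠ M := by simpa using hi
    obtain ⟨g', hg'⟩ : ∃ g' : Wd p, g' = Function.update g i M := ⟨_, rfl⟩
    have hgi : g' i = M := by rw [hg', Function.update_self]
    have hgt : ∀ t, t ≠ i → g' t = g t := by
      intro t ht
      rw [hg', Function.update_of_ne ht]
    have hset : (Finset.univ.filter fun t => g' t ≠ M) =
        (Finset.univ.filter fun t => g t ≠ M).erase i := by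
      ext t
      rw [Finset.mem_erase, Finset.mem_filter, Finset.mem_filter]
      by_cases ht : t = i
      · subst ht
        simp [hgi]
      · rw [hgt t ht]
        simp [ht]
    have hcard : (Finset.univ.filter fun t => g' t ≠ M).card = n := by
      rw [hset, Finset.card_erase_of_mem hi, hg]
      rfl
    have hmem' : g' ∈ cube f (fun _ => M) \ W := by
      rw [Finset.mem_sdiff, mem_cube] at hmem ⊢
      refine ⟨fun t => ?_, fun hW => ?_⟩
      · by_cases ht : t = i
        · right
          rw [ht, hgi]
        · rw [hgt t ht]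
          exact hmem.1 t
      · have := hM g' hW i
        rw [hgi] at this
        exact lt_irrefl _ this
    obtain ⟨h1, h2⟩ := ih g' hcard hmem'
    constructor
    · exact Relation.ReflTransGen.head ⟨hmem', i, fun t ht => (hgt t ht).symm⟩ h1
    · exact Relation.ReflTransGen.tail h2 ⟨hmem, i, fun t ht => hgt t ht⟩

theorem pf_ADD : T_ADD := by
  intro p _ W f M _ _ hf hM
  have hfQ : f ∈ cube f (fun _ => M) := by
    rw [mem_cube]
    exact fun i => Or.inl rfl
  have hint : W ∩ cube f (fun _ => M) = {f} := by
    ext g
    rw [Finset.mem_inter, Finset.mem_singleton]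
    constructor
    · rintro ⟨hg, hgQ⟩
      rw [mem_cube] at hgQ
      funext i
      exact (hgQ i).resolve_right (ne_of_lt (hM g hg i))
    · rintro rfl
      exact ⟨hf, hfQ⟩
  refine ⟨⟨?_, ?_, ?_, ?_, ?_, ?_⟩, hint⟩
  · rw [hint]
    exact Finset.singleton_nonempty f
  · intro i g hg h hh hag
    rw [hint]
    refine ⟨f, Finset.mem_singleton_self f, fun t ht => ?_⟩
    rw [mem_cube] at hh
    have h1 := hag t ht
    rcases hh t with h2 | h2
    · rw [h1, h2]
    · have h3 := hM g hg t
      rw [h1, h2] at h3
      exact absurd h3 (lt_irrefl _)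
  · intro i k hk k' hk' _
    rw [hint, Finset.mem_singleton] at hk hk'
    rw [hk, hk']
  · intro i g hg h hh hag
    rw [hint]
    refine ⟨f, Finset.mem_singleton_self f, fun t ht ht' => ?_⟩
    rw [mem_cube] at hh
    have h1 := hag t ht ht'
    rcases hh t with h2 | h2
    · rw [h1, h2]
    · have h3 := hM g hg t
      rw [h1, h2] at h3
      exact absurd h3 (lt_irrefl _)
  · intro i k hk
    left
    intro k' hk' _
    rw [hint, Finset.mem_singleton] at hk hk'
    rw [hk, hk']
  · intro g hg h hh
    exact (conn_top W f M hM _ g rfl hg).1.trans (conn_top W f M hM _ h rfl hh).2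

end Pool.Agent.H16.PMF
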