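import Pool.Agent.H54.PM.Targets

/-!
# Board pmf_modules, row NNB: the sets contain subsets without colouring
-/

set_option autoImplicit false

open scoped symmDiff

namespace Pool.Agent.H16.PMF.NNBx

open Pool.Agent.H54.PM

variable {p : ℕ} [NeZero p]

omit [NeZero p] in
theorem mem_cube (a b g : Wd p) : g ∈ cube a b ↔ ∀ i, g i = a i ∨ g i = b i := by
  unfold cube
  rw [Fintype.mem_piFinset]
  simp

theorem mem_RR (m : ℕ) (g : Wd p) : g ∈ RR p m ↔
    (∀ i : Fin p, g i ∈ if i.val = 0 ∨ i.val = 2 then Finset.range m else {0, 1}) ∧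
      (g 0 = g (Fin.ofNat p 2) ∨ g 0 = (g (Fin.ofNat p 2) + 1) % m) := by
  unfold RR
  rw [Finset.mem_filter, Fintype.mem_piFinset]

/-- the word with the letters `x`, `y`, `z` at the places `0`, `j`, `e` and `0` elsewhere -/
def w3 (j e : Fin p) (x y z : ℕ) : Wd p :=
  fun t => if t = 0 then x else if t = j then y else if t = e then z else 0

theorem w3_0 (j e : Fin p) (x y z : ℕ) : w3 j e x y z 0 = x := by
  unfold w3
  rw [if_pos rfl]

theorem w3_j {j : Fin p} (e : Fin p) (hj : j ≠ 0) (x y z : ℕ) : w3 j e x y z j = y := by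
  unfold w3
  rw [if_neg hj, if_pos rfl]

theorem w3_e {j e : Fin p} (he : e ≠ 0) (hej : e ≠ j) (x y z : ℕ) : w3 j e x y z e = z := by
  unfold w3
  rw [if_neg he, if_neg hej, if_pos rfl]

theorem w3_o {j e t : Fin p} (h0 : t ≠ 0) (hj : t ≠ j) (he : t ≠ e) (x y z : ℕ) :
    w3 j e x y z t = 0 := by
  unfold w3
  rw [if_neg h0, if_neg hj, if_neg he]

theorem mRR {m : ℕ} (hm : 2 ≤ m) (hp : 5 ≤ p) {j e : Fin p} (hj : j.val = 1 ∨ j.val = 3)
    (he : e.val = 1 ∨ e.val = 3) (hej : e ≠ j) (x y z : ℕ) :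
    w3 j e x y z ∈ RR p m ↔ (x = 0 ∨ x = 1) ∧ (y = 0 ∨ y = 1) ∧ (z = 0 ∨ z = 1) := by
  have hj0 : j ≠ 0 := by
    intro h
    rw [h] at hj
    simp at hj
  have he0 : e ≠ 0 := by
    intro h
    rw [h] at he
    simp at he
  have h2 : (Fin.ofNat p 2).val = 2 := by
    show 2 % p = 2
    exact Nat.mod_eq_of_lt (by omega)
  have h20 : Fin.ofNat p 2 ≠ 0 := by
    intro h
    rw [h] at h2
    simp at h2
  have h2j : Fin.ofNat p 2 ≠ j := by
    intro h
    rw [h] at h2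
    omega
  have h2e : Fin.ofNat p 2 ≠ e := by
    intro h
    rw [h] at h2
    omega
  have h1m : (0 + 1) % m = 1 := Nat.mod_eq_of_lt (by omega)
  rw [mem_RR, w3_0, w3_o h20 h2j h2e, h1m]
  constructor
  · rintro ⟨h, hx⟩
    have a := h j
    have b := h e
    rw [w3_j e hj0, if_neg (by omega)] at a
    rw [w3_e he0 hej, if_neg (by omega)] at b
    simp at a b
    exact ⟨hx, a, b⟩
  · rintro ⟨hx, hy, hz⟩
    refine ⟨fun i => ?_, hx⟩
    by_cases h0 : i = 0
    · rw [h0, w3_0, if_pos (Or.inl (by simp)), Finset.mem_range]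
      omega
    · by_cases hij : i = j
      · rw [hij, w3_j e hj0, if_neg (by omega)]
        simpa using hy
      · by_cases hie : i = e
        · rw [hie, w3_e he0 hej, if_neg (by omega)]
          simpa using hz
        · rw [w3_o h0 hij hie]
          split_ifs
          · rw [Finset.mem_range]
            omega
          · simp

theorem mC0 (m : ℕ) {j e : Fin p} (hj : j ≠ 0) (he : e ≠ 0) (hej : e ≠ j) (x y z : ℕ) :
    w3 j e x y z ∈ cube (fun _ => 0) (fun _ => m) ↔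
      (x = 0 ∨ x = m) ∧ (y = 0 ∨ y = m) ∧ (z = 0 ∨ z = m) := by
  rw [mem_cube]
  constructor
  · intro h
    have a := h 0
    have b := h j
    have c := h e
    rw [w3_0] at a
    rw [w3_j e hj] at b
    rw [w3_e he hej] at c
    exact ⟨a, b, c⟩
  · rintro ⟨hx, hy, hz⟩ i
    by_cases h0 : i = 0
    · rw [h0, w3_0]
      exact hx
    · by_cases hij : i = j
      · rw [hij, w3_j e hj]
        exact hy
      · by_cases hie : i = e
        · rw [hie, w3_e he hej]
          exact hz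
        · rw [w3_o h0 hij hie]
          exact Or.inl rfl

theorem mC3 (m : ℕ) {j e : Fin p} (hj : j ≠ 0) (he : e ≠ 0) (hej : e ≠ j) (x y z : ℕ) :
    w3 j e x y z ∈ cube (w2 j 1 0) (w2 j m (m + 1)) ↔
      (x = 1 ∨ x = m) ∧ (y = 1 ∨ y = m) ∧ (z = 0 ∨ z = m + 1) := by
  have k0 : ∀ a b : ℕ, w2 j a b 0 = a := fun a b => by
    unfold w2
    rw [if_pos (Or.inl rfl)]
  have kj : ∀ a b : ℕ, w2 j a b j = a := fun a b => by
    unfold w2
    rw [if_pos (Or.inr rfl)]
  have ko : ∀ (t : Fin p) (a b : ℕ), t ≠ 0 → t ≠ j → w2 j a b t = b := fun t a b h h' => by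
    unfold w2
    rw [if_neg (by tauto)]
  rw [mem_cube]
  constructor
  · intro h
    have a := h 0
    have b := h j
    have c := h e
    rw [w3_0, k0, k0] at a
    rw [w3_j e hj, kj, kj] at b
    rw [w3_e he hej, ko e _ _ he hej, ko e _ _ he hej] at c
    exact ⟨a, b, c⟩
  · rintro ⟨hx, hy, hz⟩ i
    by_cases h0 : i = 0
    · rw [h0, w3_0, k0, k0]
      exact hx
    · by_cases hij : i = j
      · rw [hij, w3_j e hj, kj, kj]
        exact hy
      · rw [ko i _ _ h0 hij, ko i _ _ h0 hij]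
        by_cases hie : i = e
        · rw [hie, w3_e he hej]
          exact hz
        · rw [w3_o h0 hij hie]
          exact Or.inl rfl

theorem mWN (m : ℕ) (j : Fin p) (g : Wd p) : g ∈ WN p m j ↔
    ((g ∈ RR p m ∧ g ∉ cube (fun _ => 0) (fun _ => m) ∨
        g ∈ cube (fun _ => 0) (fun _ => m) ∧ g ∉ RR p m) ∧
      g ∉ cube (w2 j 1 0) (w2 j m (m + 1)) ∨
    g ∈ cube (w2 j 1 0) (w2 j m (m + 1)) ∧
      ¬ (g ∈ RR p m ∧ g ∉ cube (fun _ => 0) (fun _ => m) ∨
        g ∈ cube (fun _ => 0) (fun _ => m) ∧ g ∉ RR p m)) := by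
  unfold WN WA
  rw [Finset.mem_symmDiff, Finset.mem_symmDiff]

theorem bd {m : ℕ} (hm : 2 ≤ m) (j : Fin p) (g : Wd p) (hg : g ∈ WN p m j) (i : Fin p) :
    g i ≤ m + 1 := by
  have h : g ∈ RR p m ∨ g ∈ cube (fun _ => 0) (fun _ => m) ∨
      g ∈ cube (w2 j 1 0) (w2 j m (m + 1)) := by
    rw [mWN] at hg
    tauto
  rcases h with h | h | h
  · rw [mem_RR] at h
    have := h.1 i
    split_ifs at this
    · rw [Finset.mem_range] at this
      omega
    · simp at this
      omega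
  · rw [mem_cube] at h
    have := h i
    omega
  · rw [mem_cube] at h
    have := h i
    unfold w2 at this
    split_ifs at this <;> omega

theorem two (a b c : Bool) (h1 : a ≠ b) (h2 : b ≠ c) : a = c := by
  cases a <;> cases b <;> cases c <;> simp_all

theorem no3 (a b c : Bool) (h1 : a ≠ b) (h2 : b ≠ c) (h3 : c ≠ a) : False :=
  h3 (two a b c h1 h2).symm

/-- the fifteen words -/
def trip (m : ℕ) : Finset (ℕ × ℕ × ℕ) :=
  {(0, 1, 0), (0, 1, 1), (1, 1, 1), (1, 0, 1), (1, 0, 0),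
    (0, m, 0), (0, m, m), (m, m, m), (m, 0, m), (m, 0, 0),
    (1, m, 0), (1, m, m + 1), (m, m, m + 1), (m, 1, m + 1), (m, 1, 0)}

theorem mem_trip (m : ℕ) (q : ℕ × ℕ × ℕ) : q ∈ trip m ↔
    q = (0, 1, 0) ∨ q = (0, 1, 1) ∨ q = (1, 1, 1) ∨ q = (1, 0, 1) ∨ q = (1, 0, 0) ∨
    q = (0, m, 0) ∨ q = (0, m, m) ∨ q = (m, m, m) ∨ q = (m, 0, m) ∨ q = (m, 0, 0) ∨
    q = (1, m, 0) ∨ q = (1, m, m + 1) ∨ q = (m, m, m + 1) ∨ q = (m, 1, m + 1) ∨
    q = (m, 1, 0) := by
  unfold trip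
  simp only [Finset.mem_insert, Finset.mem_singleton]

theorem pf_NNB : T_NNB := by
  intro p _ m j hp hm hj
  refine ⟨fun g hg i => bd hm j g hg i, ?_⟩
  obtain ⟨e, he, hej⟩ : ∃ e : Fin p, (e.val = 1 ∨ e.val = 3) ∧ e ≠ j := by
    rcases hj with h | h
    · refine ⟨⟨3, by omega⟩, Or.inr rfl, fun hc => ?_⟩
      rw [← hc] at h
      simp at h
    · refine ⟨⟨1, by omega⟩, Or.inl rfl, fun hc => ?_⟩
      rw [← hc] at h
      simp at h
  have hj0 : j ≠ 0 := by
    intro h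
    rw [h] at hj
    simp at hj
  have he0 : e ≠ 0 := by
    intro h
    rw [h] at he
    simp at he
  obtain ⟨S, hS⟩ : ∃ S : Finset (Wd p), S = (trip m).image fun q => w3 j e q.1 q.2.1 q.2.2 :=
    ⟨_, rfl⟩
  have hmem : ∀ x y z : ℕ, (x, y, z) ∈ trip m → w3 j e x y z ∈ S := by
    intro x y z h
    rw [hS]
    exact Finset.mem_image_of_mem (fun q : ℕ × ℕ × ℕ => w3 j e q.1 q.2.1 q.2.2) h
  have hsub : S ⊆ WN p m j := by
    intro g hg
    rw [hS, Finset.mem_image] at hg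
    obtain ⟨q, hq, rfl⟩ := hg
    rw [mWN, mRR hm hp hj he hej, mC0 m hj0 he0 hej, mC3 m hj0 he0 hej]
    obtain ⟨x, y, z⟩ := q
    rw [mem_trip] at hq
    simp only [Prod.mk.injEq] at hq
    dsimp only
    omega
  refine ⟨S, hsub, ?_, fun _ => m, ?_, ?_⟩
  · rintro ⟨c, hc⟩
    have ex : ∀ x x' y z : ℕ, (x, y, z) ∈ trip m → (x', y, z) ∈ trip m → x ≠ x' →
        c (w3 j e x y z) ≠ c (w3 j e x' y z) := by
      intro x x' y z h h' hne
      refine hc _ (hmem _ _ _ h) _ (hmem _ _ _ h') (fun hh => hne ?_) ⟨0, fun t ht => ?_⟩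
      · have := congrFun hh 0
        rwa [w3_0, w3_0] at this
      · unfold w3
        rw [if_neg ht, if_neg ht]
    have ey : ∀ x y y' z : ℕ, (x, y, z) ∈ trip m → (x, y', z) ∈ trip m → y ≠ y' →
        c (w3 j e x y z) ≠ c (w3 j e x y' z) := by
      intro x y y' z h h' hne
      refine hc _ (hmem _ _ _ h) _ (hmem _ _ _ h') (fun hh => hne ?_) ⟨j, fun t ht => ?_⟩
      · have := congrFun hh j
        rwa [w3_j e hj0, w3_j e hj0] at this
      · unfold w3
        rw [if_neg ht, if_neg ht]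
    have ez : ∀ x y z z' : ℕ, (x, y, z) ∈ trip m → (x, y, z') ∈ trip m → z ≠ z' →
        c (w3 j e x y z) ≠ c (w3 j e x y z') := by
      intro x y z z' h h' hne
      refine hc _ (hmem _ _ _ h) _ (hmem _ _ _ h') (fun hh => hne ?_) ⟨e, fun t ht => ?_⟩
      · have := congrFun hh e
        rwa [w3_e he0 hej, w3_e he0 hej] at this
      · unfold w3
        rw [if_neg ht, if_neg ht]
    have t1 : ((0, 1, 0) : ℕ × ℕ × ℕ) ∈ trip m := by simp [trip]
    have t2 : ((0, 1, 1) : ℕ × ℕ × ℕ) ∈ trip m := by simp [trip]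
    have t3 : ((1, 1, 1) : ℕ × ℕ × ℕ) ∈ trip m := by simp [trip]
    have t4 : ((1, 0, 1) : ℕ × ℕ × ℕ) ∈ trip m := by simp [trip]
    have t5 : ((1, 0, 0) : ℕ × ℕ × ℕ) ∈ trip m := by simp [trip]
    have t6 : ((0, m, 0) : ℕ × ℕ × ℕ) ∈ trip m := by simp [trip]
    have t7 : ((0, m, m) : ℕ × ℕ × ℕ) ∈ trip m := by simp [trip]
    have t8 : ((m, m, m) : ℕ × ℕ × ℕ) ∈ trip m := by simp [trip]
    have t9 : ((m, 0, m) : ℕ × ℕ × ℕ) ∈ trip m := by simp [trip]
    have t10 : ((m, 0, 0) : ℕ × ℕ × ℕ) ∈ trip m := by simp [trip]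
    have t11 : ((1, m, 0) : ℕ × ℕ × ℕ) ∈ trip m := by simp [trip]
    have t12 : ((1, m, m + 1) : ℕ × ℕ × ℕ) ∈ trip m := by simp [trip]
    have t13 : ((m, m, m + 1) : ℕ × ℕ × ℕ) ∈ trip m := by simp [trip]
    have t14 : ((m, 1, m + 1) : ℕ × ℕ × ℕ) ∈ trip m := by simp [trip]
    have t15 : ((m, 1, 0) : ℕ × ℕ × ℕ) ∈ trip m := by simp [trip]
    have g1 : c (w3 j e 0 1 0) = c (w3 j e 1 0 0) :=
      (two _ _ _ (ez 0 1 0 1 t1 t2 (by omega)) (ex 0 1 1 1 t2 t3 (by omega))).trans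
        (two _ _ _ (ey 1 1 0 1 t3 t4 (by omega)) (ez 1 0 1 0 t4 t5 (by omega)))
    have g2 : c (w3 j e 0 m 0) = c (w3 j e m 0 0) :=
      (two _ _ _ (ez 0 m 0 m t6 t7 (by omega)) (ex 0 m m m t7 t8 (by omega))).trans
        (two _ _ _ (ey m m 0 m t8 t9 (by omega)) (ez m 0 m 0 t9 t10 (by omega)))
    have g3 : c (w3 j e 1 m 0) = c (w3 j e m 1 0) :=
      (two _ _ _ (ez 1 m 0 (m + 1) t11 t12 (by omega))
        (ex 1 m m (m + 1) t12 t13 (by omega))).trans
        (two _ _ _ (ey m m 1 (m + 1) t13 t14 (by omega)) (ez m 1 (m + 1) 0 t14 t15 (by omega)))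
    have k1 := ey 0 1 m 0 t1 t6 (by omega)
    have k2 := ey m 0 1 0 t10 t15 (by omega)
    have k3 := ey 1 m 0 0 t11 t5 (by omega)
    refine no3 (c (w3 j e 0 1 0)) (c (w3 j e 0 m 0)) (c (w3 j e 1 m 0)) k1 ?_ ?_
    · rw [g2, g3]
      exact k2
    · rw [g1]
      exact k3
  · have h2 : (Fin.ofNat p 2).val = 2 := by
      show 2 % p = 2
      exact Nat.mod_eq_of_lt (by omega)
    rw [mWN]
    left
    refine ⟨Or.inr ⟨?_, ?_⟩, ?_⟩
    · rw [mem_cube]
      exact fun i => Or.inr rfl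
    · intro h
      rw [mem_RR] at h
      have := h.1 0
      rw [if_pos (Or.inl (by simp)), Finset.mem_range] at this
      exact lt_irrefl _ this
    · intro h
      rw [mem_cube] at h
      have := h (Fin.ofNat p 2)
      have n0 : Fin.ofNat p 2 ≠ 0 := by
        intro hc
        rw [hc] at h2
        simp at h2
      have nj : Fin.ofNat p 2 ≠ j := by
        intro hc
        rw [hc] at h2
        omega
      unfold w2 at this
      rw [if_neg (by tauto), if_neg (by tauto)] at this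
      omega
  · intro h
    rw [hS, Finset.mem_image] at h
    obtain ⟨q, _, hq⟩ := h
    have h2 : (Fin.ofNat p 2).val = 2 := by
      show 2 % p = 2
      exact Nat.mod_eq_of_lt (by omega)
    have n0 : Fin.ofNat p 2 ≠ 0 := by
      intro hc
      rw [hc] at h2
      simp at h2
    have nj : Fin.ofNat p 2 ≠ j := by
      intro hc
      rw [hc] at h2
      omega
    have ne : Fin.ofNat p 2 ≠ e := by
      intro hc
      rw [hc] at h2
      omega
    have := congrFun hq (Fin.ofNat p 2)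
    rw [w3_o n0 nj ne] at this
    omega

end Pool.Agent.H16.PMF.NNBx
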